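import Pool.Agent.Helper62K9.DW.Low
import Pool.Agent.Helper62K9.DW.Gap

/-!
# Decomposable circuits: `2` is exactly the best constant ratio for vertex cover

Inputs are the graphs on `2n` vertices that contain a fixed perfect matching (unit weights); for
all of them the linear programming relaxation has the value `n` and `n ≤ vc ≤ 2n`, so the ratio `2`
is free.  A circuit of or-gates and and-gates is decomposable if the two inputs of an and-gate read
disjoint sets of pairs; special cases are nondeterministic read-once branching programs (decision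
diagrams such as OBDDs and FBDDs, with arbitrary order) and DNNFs.  Negations are free, since the
leaves are arbitrary functions; every leaf may even depend on a constant fraction of all pairs.
We prove that random decomposable circuits that never accept a graph with `vc > (2 - ε) n` and
accept every graph with `vc = n` with probability at least `2^(-γ ε ^ 4 n)` have `2^(γ ε ^ 4 n)`
gates, with an absolute constant `γ` and for all `n`, while `2^(O(ε n))` gates suffice for the
ratio `2 - ε` and `2^(O(n))` gates for the exact problem.
-/

set_option autoImplicit false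

namespace Pool.Agent.Results.MP_cff830_lc.DecomposableCircuits

open Pool.Agent.Helper62K9.DV

/-- (1) There is `γ > 0` such that for all real `c` with `1 ≤ c < 2` and all `n` the following
holds.  Let a random
decomposable circuit be given (the circuit `D r` with probability `p r`) whose leaves are arbitrary
functions of at most `1 + γ (2 - c)^4 n²` variables each, such that no circuit of the family accepts
a graph `G` (on `2n` vertices, with the fixed perfect matching) with `vc G > c n`, and every such
graph with `vc G = n` is accepted with probability at least `2^(-γ (2 - c)^4 n)`.  Then some circuit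
of the family has at least `2^(γ (2 - c)^4 n) - 1` gates.  (2) All these graphs have
`n ≤ vc G ≤ 2n`, so that for `c = 2` the
constant true is a correct circuit.  (3) For all `n` and `k` there is a decomposable circuit with at
most `(2n² + n + 1)(4^n + 1)` gates whose leaves read one variable each and that accepts a graph `G`
on the `2n` vertices if and only if `vc G ≤ k`.  (4) For all `m ≤ n` there is a decomposable circuit
with at most `(2m² + m + 1)(4^m + 1)` gates whose leaves read one variable each and that accepts all
the graphs with `vc G = n` and only graphs with `vc G ≤ 2n - m = (2 - m / n) n`. -/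
theorem result :
    (∃ γ : ℝ, 0 < γ ∧
      ∀ (c : ℝ) (n l : ℕ) (R : Type) [Fintype R] (p : R → ℝ) (ι : R → Type) [∀ r, Fintype (ι r)]
        (D : ∀ r, Circuit (Sym2 (Fin n × Bool)) (ι r)),
        1 ≤ c → c < 2 → (∀ r, 0 ≤ p r) → ∑ r, p r = 1 →
        (∀ r, (D r).Decomposable) → (∀ r, (D r).LeafSize l) →
        (l : ℝ) ≤ 1 + γ * (2 - c) ^ 4 * (n : ℝ) ^ 2 →
        (∀ r, ∀ G ∈ matched n, (D r).Accepts (code G) → (vc G : ℝ) ≤ c * n) →
        (∀ G ∈ matched n, vc G = n →
          (2 : ℝ) ^ (-(γ * (2 - c) ^ 4 * n)) ≤
            ∑ r, Set.indicator {r | (D r).Accepts (code G)} p r) →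
        ∃ r, (2 : ℝ) ^ (γ * (2 - c) ^ 4 * n) ≤ Fintype.card (ι r) + 1) ∧
    (∀ (n : ℕ), ∀ G ∈ matched n, n ≤ vc G ∧ vc G ≤ 2 * n) ∧
    (∀ n k : ℕ, ∃ (ι : Type) (_ : Fintype ι) (D : Circuit (Sym2 (Fin n × Bool)) ι),
      Fintype.card ι ≤ (2 * n ^ 2 + n + 1) * (4 ^ n + 1) ∧ D.Decomposable ∧ D.LeafSize 1 ∧
        ∀ G : SimpleGraph (Fin n × Bool), D.Accepts (code G) ↔ vc G ≤ k) ∧
    (∀ m n : ℕ, m ≤ n → ∃ (ι : Type) (_ : Fintype ι) (D : Circuit (Sym2 (Fin n × Bool)) ι),
      Fintype.card ι ≤ (2 * m ^ 2 + m + 1) * (4 ^ m + 1) ∧ D.Decomposable ∧ D.LeafSize 1 ∧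
        (∀ G ∈ matched n, vc G = n → D.Accepts (code G)) ∧
        ∀ G : SimpleGraph (Fin n × Bool), D.Accepts (code G) → vc G + m ≤ 2 * n) :=
  ⟨Pool.Agent.Helper62K9.DW.lower2, fun _ _ hG => matched_bounds hG, upper,
    Pool.Agent.Helper62K9.DW.gap⟩

end Pool.Agent.Results.MP_cff830_lc.DecomposableCircuits
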