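import Pool.Agent.Helper78K9.LC.Def
import Pool.Agent.Helper78K9.LC.Final

/-!
# Vertex cover from local statistics, the spectrum and the double cover: the ratio is exactly `2`

Suppose that an algorithm of any complexity only uses the following data of a graph `G` of bounded
degree with `n` vertices (unit weights), where `m = δ log n`:

* the characteristic polynomial of the adjacency matrix and the bipartite double cover `B(G)`;
* the numbers of induced copies of all graphs with at most `m` vertices;
* the numbers of homomorphisms from all graphs, of any size, that are bipartite or have a closed walk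
  of odd length at most `m`;
* the views of the radius `m` of all vertices (this is more than local algorithms see).

`SameData m G H` says that `G` and `H` agree in all of this. We show that `2` is exactly the best ratio
for such algorithms, even on connected graphs: for every `c < 2` there are a bound `D` for the degrees
and `δ > 0` such that no function of the data approximates the vertex cover number `vc` with the ratio
`c`. The double cover alone gives the ratio `2` (`vc G ≤ vc B(G) ≤ 2 vc G`).

The graphs: let `H` be a graph of bounded degree with `N` vertices, without closed walks of odd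
length at most `C log N`, in which all independent sets are small (a random sparse graph; its components are
joined by a path). Let `q` be a large prime and `P` a random reflection cover of `H`: it has the
vertices `(u, x)`, `x ∈ ℤ/q`, and the edges `(u, x) (v, y)` with `uv` an edge of `H` and
`x + y = c(uv)`, where the elements `c(uv)` of `ℤ/q` are random, so that `P` has only small
independent sets. `G₁` consists of the bipartite double cover of `P` and two copies of `H`, and `G₂`
of two copies of `P` and the bipartite double cover of `H`; every vertex of a copy of `P` is joined to
the vertices of the copies of `H` below it. The bipartite double covers of `G₁` and `G₂` are isomorphic.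
The characteristic polynomials agree since `f (x - 1) - f (x + 1)` anticommutes with the adjacency
operator of `P`. On a set of vertices with a bipartite projection (for example: at most `C log N` vertices) `G₁` and
`G₂` are isomorphic: exchange the sheets over one of the two classes.
-/

set_option autoImplicit false

namespace Pool.Agent.Results.MP_cff830_lc.LocalStatistics

open Pool.Agent.Helper78K9.LC
open Pool.Agent.Helper62K9.DV (vc)

/-- (1) For every `k ≥ 1` there are `D` and `δ > 0` such that there are arbitrarily large pairs of
connected graphs `G₁`, `G₂` with `n` vertices (on the same vertex set) and degrees at most `D`, which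
agree in the data with `m = δ log n`, with `vc G₁ ≤ (1/2 + 1/k) n` and `vc G₂ ≥ (1 - 2/k) n`.
(2) For every `c < 2` there are `D` and `δ > 0` such that for every real function `Φ` of finite graphs
(computable or not) which has equal values on graphs on the same vertex set that agree in the data with
`m = δ log n`, the inequalities `vc G ≤ Φ G ≤ c vc G` fail for arbitrarily large connected graphs `G` with
degrees at most `D`.
(3) For every finite graph `G` with the bipartite double cover `B(G)`: `vc G ≤ vc B(G) ≤ 2 vc G`. -/
theorem result :
    (∀ k : ℕ, 1 ≤ k → ∃ (D : ℕ) (δ : ℝ), 0 < δ ∧ ∀ N : ℕ, ∃ (V : Type) (_ : Fintype V)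
      (G₁ G₂ : SimpleGraph V), N ≤ Fintype.card V ∧ G₁.Connected ∧ G₂.Connected ∧
      (∀ v, (G₁.neighborSet v).ncard ≤ D ∧ (G₂.neighborSet v).ncard ≤ D) ∧
      SameData (δ * Real.log (Fintype.card V)) G₁ G₂ ∧
      (vc G₁ : ℝ) ≤ (1 / 2 + 1 / k) * Fintype.card V ∧
      (1 - 2 / (k : ℝ)) * Fintype.card V ≤ vc G₂) ∧
    (∀ c : ℝ, c < 2 → ∃ (D : ℕ) (δ : ℝ), 0 < δ ∧
      ∀ Φ : (∀ (V : Type) [Fintype V], SimpleGraph V → ℝ),
        (∀ (V : Type) [Fintype V] (G H : SimpleGraph V),
          SameData (δ * Real.log (Fintype.card V)) G H → Φ V G = Φ V H) →
        ∀ N : ℕ, ∃ (V : Type) (_ : Fintype V) (G : SimpleGraph V), N ≤ Fintype.card V ∧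
          G.Connected ∧ (∀ v, (G.neighborSet v).ncard ≤ D) ∧
          ¬ ((vc G : ℝ) ≤ Φ V G ∧ Φ V G ≤ c * vc G)) ∧
    (∀ (V : Type) [Fintype V] (G : SimpleGraph V),
      vc G ≤ vc G.bipartiteDoubleCover ∧ vc G.bipartiteDoubleCover ≤ 2 * vc G) :=
  ⟨all_graphs, all_no_ratio, fun _ _ G => Pool.Agent.Helper62K9.SD.double_bounds G⟩

end Pool.Agent.Results.MP_cff830_lc.LocalStatistics
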