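import Pool.Agent.Helper62K9.SQ.Asm
import Pool.Agent.Helper86K9.SQ.Co
import Pool.Agent.Helper86K9.SQ.Ma
import Pool.Agent.Helper68K9.SQ.Up

/-!
# Vertex cover on all graphs: the price of the ratio `c` for decomposable circuits

A circuit of or-gates and and-gates is decomposable if the two inputs of an and-gate read disjoint
sets of pairs; special cases are nondeterministic read-once branching programs (with arbitrary
order) and DNNFs.  The leaves are arbitrary functions of few variables, so negations are free.
On all graphs with `n` vertices (unit weights) the ratio `c` for the vertex cover number costs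
between `2 ^ (γ n / c ^ 2)` gates, even with random circuits, and `poly (n)` times the number of
sets with at most `n / c ^ 2 + 1` elements.  So no constant ratio can be achieved with
`2 ^ o (n)` gates, and the best ratio in polynomial size is `√n` up to a factor `√(log n)`.

Lower bound: an accepted input has a proof tree, which is cut into at most `O (c ^ 2)` chunks with
few variables and together `O (c ^ 2)` boundary gates.  If there are few gates, the types of all
chunks of some input are popular among the graphs `G (σ)` of all pairs that touch a transversal of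
`n / (2 c)` blocks, and the circuit accepts all mixtures of chunks from these popular classes; by
counting, some mixture has no independent set with `n / 2` vertices.  Upper bound: a dynamic program
over blocks of consecutive vertices that contain at most `n / c ^ 2 + 1` members of the cover.
-/

set_option autoImplicit false

namespace Pool.Agent.Results.MP_cff830_lc.SquareRootLaw

open Finset Pool.Agent.Helper62K9.DV

/-- (1) There is `γ > 0` such that for all `n` and `c ≥ 1` the following holds.  Let a random
decomposable circuit be given (the circuit `D r` with probability `p r`), whose variables are the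
pairs of `n` vertices and whose leaves are arbitrary functions of at most `1 + γ n² / c²` variables,
such that no circuit of the family accepts a graph with `vc G > c k`, where `k = ⌊n / (2 c)⌋`, and
every graph with `vc G ≤ k` is accepted with probability at least `2 ^ (- γ n / c²)`.  Then some
circuit of the family has at least `2 ^ (γ n / c²) - 1` gates.  (2) For all `n`, `k` and `c ≥ 1`
there is a decomposable circuit with at most `4 (n + 1)⁵ ∑ C(n, j)` gates, the sum over
`j ≤ ⌊n / c²⌋ + 1`, and leaves of at most `n` variables, which accepts all graphs with `vc G ≤ k`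
and no graph with `vc G > c k`.  (3) If `n < c²` it has at most `4 (n + 1)⁶` gates. -/
theorem result :
    (∃ γ : ℝ, 0 < γ ∧
      ∀ (n c l : ℕ) (R : Type) [Fintype R] (p : R → ℝ) (ι : R → Type) [∀ r, Fintype (ι r)]
        (D : ∀ r, Circuit (Sym2 (Fin n)) (ι r)),
        1 ≤ c → (∀ r, 0 ≤ p r) → ∑ r, p r = 1 →
        (∀ r, (D r).Decomposable) → (∀ r, (D r).LeafSize l) →
        (l : ℝ) ≤ 1 + γ * (n : ℝ) ^ 2 / (c : ℝ) ^ 2 →
        (∀ r, ∀ G : SimpleGraph (Fin n), (D r).Accepts (code G) → vc G ≤ c * (n / (2 * c))) →
        (∀ G : SimpleGraph (Fin n), vc G ≤ n / (2 * c) →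
          (2 : ℝ) ^ (-(γ * n / (c : ℝ) ^ 2)) ≤
            ∑ r, Set.indicator {r | (D r).Accepts (code G)} p r) →
        ∃ r, (2 : ℝ) ^ (γ * n / (c : ℝ) ^ 2) ≤ Fintype.card (ι r) + 1) ∧
    (∀ n c k : ℕ, 1 ≤ c →
      ∃ (ι : Type) (_ : Fintype ι) (D : Circuit (Sym2 (Fin n)) ι),
        Fintype.card ι ≤ 4 * (n + 1) ^ 5 * ∑ j ∈ range (n / c ^ 2 + 2), n.choose j ∧
        D.Decomposable ∧ D.LeafSize n ∧
        (∀ G : SimpleGraph (Fin n), vc G ≤ k → D.Accepts (code G)) ∧
        ∀ G : SimpleGraph (Fin n), D.Accepts (code G) → vc G ≤ c * k) ∧
    ∀ n c : ℕ, n < c ^ 2 →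
      4 * (n + 1) ^ 5 * ∑ j ∈ range (n / c ^ 2 + 2), n.choose j = 4 * (n + 1) ^ 6 := by
  refine ⟨Pool.Agent.Helper62K9.SQ.lo
    (Pool.Agent.Helper86K9.SQ.ma Pool.Agent.Helper62K9.SQ.sk Pool.Agent.Helper86K9.SQ.co),
    fun n c k hc => Pool.Agent.Helper62K9.SQ.upperS Pool.Agent.Helper68K9.SQ.up n c k hc, ?_⟩
  intro n c h
  rw [Nat.div_eq_of_lt h, sum_range_succ, sum_range_succ, sum_range_zero]
  simp only [Nat.choose_zero_right, Nat.choose_one_right]
  ring

end Pool.Agent.Results.MP_cff830_lc.SquareRootLaw
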