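import Pool.Agent.Helper62K9.TW.Lbe
import Pool.Agent.Helper62K9.TW.Gap

/-!
# Vertex cover: time times space of two-way programs for every ratio below `2`

Inputs are the graphs on `2n` vertices that contain a fixed perfect matching (unit weights); for
all of them `n ≤ vc ≤ 2n`, so the ratio `2` is free.  The adjacency matrix is written on a tape,
every pair in one cell, in an arbitrary order.  A nondeterministic, nonuniform, clocked program
(`TwoWay`) with `s` states moves a head over the tape, at most one cell in each of its `T` steps.
Special cases are streaming algorithms with `⌊log₂ s⌋` bits of memory that read the stream of all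
pairs several times, in the same or in alternating direction.

For every ratio `c = 2 - ε < 2` we prove `T log₂ (T s + 1) ≥ γ ε ^ 8 n ^ 3` (time times space), with
an absolute constant `γ`, even for random programs that accept the graphs with `vc = n` with a very
small probability only.  The exact problem is solved by guessing the cover and one pass, with
`T = n (2n + 1)` and `log₂ s` about `2n`; for the ratio `2 - m / n` the part of the cover in `m` of
the edges of the matching is enough, and `log₂ s` is about `2m`.  So the product of time and space
is of the order `n³` for all constant ratios in `[1, 2)` (between `γ ε ^ 8 n³` and `O(ε n³)`), and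
`2` is the threshold; it is larger than `n ^ (2 + δ)` even for
ratios which tend to `2` polynomially.

Proof. Among `w = γ' ε ^ 4 n²` consecutive boundaries between cells choose one that is crossed least
often; all chosen boundaries together are crossed at most `T / w` times.
So the tape is cut into `O(ε ^ (-4))` segments, and a large subfamily of the graphs, the
complements of cliques on a transversal of the matching, has computations with the same boundaries
and the same crossings.  Then all mixtures of these graphs (one graph for each segment) are
accepted, and by a counting argument one of the mixtures has no large independent set.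
-/

set_option autoImplicit false

namespace Pool.Agent.Results.MP_cff830_lc.TimeSpace

open Pool.Agent.Helper62K9.DV Pool.Agent.Helper62K9.TW

/-- (1) There is `γ > 0` such that for all real `c` with `1 ≤ c < 2` and all `n ≥ 2` with
`log₂ n ≤ γ (2 - c)^8 n` the following holds.
Let a random two-way program be given (the program `P r`, with at most `s` states, with probability
`p r`), such that no program of the family accepts in `T` steps a graph `G` (on `2n` vertices, with
the fixed perfect matching) with `vc G > c n`, and every such graph with `vc G = n` is accepted in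
`T` steps with probability at least `2^(-γ (2 - c)^4 n)`.  Then
`T log₂ (T s + 1) ≥ γ (2 - c)^8 n³`.  (2) All these
graphs have `n ≤ vc G ≤ 2n`, so that for `c = 2` a program that always accepts is correct.
(3) For all `n`, `k` and every order of the cells there is a program with at most `4^n + 1` states
that moves the head by one cell to the right in every step and accepts a graph `G` on the `2n`
vertices in `n (2n + 1)` steps (the number of the cells) if and only if `vc G ≤ k`.  (4) For all
`m ≤ n` and every order of the cells there is such a program with at most `4^m + 1` states that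
accepts in `n (2n + 1)` steps all graphs with `vc G = n` and only graphs with `vc G ≤ 2n - m`. -/
theorem result :
    (∃ γ : ℝ, 0 < γ ∧
      ∀ (c : ℝ) (n T s : ℕ) (R : Type) [Fintype R] (p : R → ℝ) (Q : R → Type)
        [∀ r, Fintype (Q r)] (P : ∀ r, TwoWay (Sym2 (Fin n × Bool)) (Q r)),
        1 ≤ c → c < 2 → 2 ≤ n → Real.logb 2 n ≤ γ * (2 - c) ^ 8 * n →
        (∀ r, 0 ≤ p r) → ∑ r, p r = 1 → (∀ r, Fintype.card (Q r) ≤ s) →
        (∀ r, ∀ G ∈ matched n, (P r).Accepts T (code G) → (vc G : ℝ) ≤ c * n) →
        (∀ G ∈ matched n, vc G = n →
          (2 : ℝ) ^ (-(γ * (2 - c) ^ 4 * n)) ≤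
            ∑ r, Set.indicator {r | (P r).Accepts T (code G)} p r) →
        γ * (2 - c) ^ 8 * (n : ℝ) ^ 3 ≤ T * Real.logb 2 (T * s + 1)) ∧
    (∀ (n : ℕ), ∀ G ∈ matched n, n ≤ vc G ∧ vc G ≤ 2 * n) ∧
    (∀ (n k : ℕ) (o : Sym2 (Fin n × Bool) ≃ Fin (Fintype.card (Sym2 (Fin n × Bool)))),
      ∃ (Q : Type) (_ : Fintype Q) (P : TwoWay (Sym2 (Fin n × Bool)) Q),
        Fintype.card Q ≤ 4 ^ n + 1 ∧ P.order = o ∧
        (∀ t q j b q' j', P.step t q j b q' j' → j' = j + 1) ∧
        ∀ G : SimpleGraph (Fin n × Bool), P.Accepts (n * (2 * n + 1)) (code G) ↔ vc G ≤ k) ∧
    (∀ m n : ℕ, m ≤ n →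
      ∀ o : Sym2 (Fin n × Bool) ≃ Fin (Fintype.card (Sym2 (Fin n × Bool))),
        ∃ (Q : Type) (_ : Fintype Q) (P : TwoWay (Sym2 (Fin n × Bool)) Q),
          Fintype.card Q ≤ 4 ^ m + 1 ∧ P.order = o ∧
          (∀ t q j b q' j', P.step t q j b q' j' → j' = j + 1) ∧
          (∀ G ∈ matched n, vc G = n → P.Accepts (n * (2 * n + 1)) (code G)) ∧
          ∀ G : SimpleGraph (Fin n × Bool), P.Accepts (n * (2 * n + 1)) (code G) →
            vc G + m ≤ 2 * n) :=
  ⟨lbe, fun _ _ hG => matched_bounds hG, ub, gapTW⟩

end Pool.Agent.Results.MP_cff830_lc.TimeSpace
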